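import Pool.Agent.Helper16.SYM.Defs

/-!
# Project SYM, piece C3: symmetric tensors take rational values on conjugate tuples
-/

set_option autoImplicit false

namespace Pool.Agent.Helper52.SYM

open Pool.Agent.Helper16.SYM
open scoped TensorProduct

universe u

/-- Applying an automorphism that permutes the homomorphisms amounts to permuting the factors. -/
theorem apply_evT {K k A : Type*} [CommRing K] [CommRing k] [Algebra K k] [CommRing A]
    [Algebra K A] {N : ℕ} (φ : Fin N → (A →ₐ[K] k)) (σ : k →ₐ[K] k) (τ : Equiv.Perm (Fin N))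
    (h : ∀ i a, σ (φ i a) = φ (τ i) a) (z : ⨂[K] _ : Fin N, A) :
    σ (evT φ z) = evT φ (PiTensorProduct.reindex K (fun _ => A) τ z) := by
  induction z using PiTensorProduct.induction_on with
  | smul_tprod r f =>
    rw [map_smul, map_smul, map_smul, map_smul, PiTensorProduct.reindex_tprod, evT_tprod,
      evT_tprod, map_prod]
    congr 1
    refine Fintype.prod_equiv τ _ _ fun i => ?_
    rw [h, Equiv.symm_apply_apply]
  | add x y hx hy => rw [map_add, map_add, map_add, map_add, hx, hy]

/-- C3: symmetric tensors take rational values on conjugate tuples. -/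
theorem evT_mem {K L k : Type u} [Field K] [Field L] [Field k] [CharZero K] [Algebra K L]
    [Algebra K k] [Algebra L k] [IsScalarTower K L k] [IsAlgClosure L k] {A : Type u} [CommRing A]
    [Algebra K A] {N : ℕ} (φ : Fin N → (A →ₐ[K] k))
    (hφ : ∀ σ : k ≃ₐ[L] k, ∃ τ : Equiv.Perm (Fin N), ∀ i a, σ (φ i a) = φ (τ i) a)
    (z : symPow K A N) : evT φ (z : ⨂[K] _ : Fin N, A) ∈ Set.range (algebraMap L k) := by
  have : CharZero L := charZero_of_injective_algebraMap (algebraMap K L).injective
  have : Algebra.IsAlgebraic L k := IsAlgClosure.isAlgebraic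
  have : Normal L k := IsAlgClosure.normal L k
  have : IsGalois L k := {}
  have hmem : evT φ (z : ⨂[K] _ : Fin N, A) ∈ (⊥ : IntermediateField L k) := by
    rw [InfiniteGalois.mem_bot_iff_fixed]
    intro σ
    obtain ⟨τ, hτ⟩ := hφ σ
    have h1 := apply_evT φ ((σ : k →ₐ[L] k).restrictScalars K) τ (fun i a => hτ i a)
      (z : ⨂[K] _ : Fin N, A)
    rw [z.2 τ] at h1
    exact h1
  exact IntermediateField.mem_bot.1 hmem

end Pool.Agent.Helper52.SYM
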