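import Mathlib

set_option autoImplicit false

namespace Pool.Agent.Helper52.MengerQ

/-!
The chain complete ordered set used in the solution of MP_8697c3_co.
-/

/-- Points of the counterexample: a minimal point `m s` and a tree point `x s` for each finite
0-1 word `s`, and a maximal point `z f` for each infinite 0-1 word `f`. -/
inductive Q : Type
  | m (s : List Bool) : Q
  | x (s : List Bool) : Q
  | z (f : ℕ → Bool) : Q

/-- The prefix of length `n` of the infinite word `f`. -/
def node (f : ℕ → Bool) (n : ℕ) : List Bool := (List.range n).map f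

theorem node_length (f : ℕ → Bool) (n : ℕ) : (node f n).length = n := by
  simp [node]

theorem node_inj {f : ℕ → Bool} {n k : ℕ} (h : node f n = node f k) : n = k := by
  have := congrArg List.length h
  simpa [node_length] using this

theorem node_take (f : ℕ → Bool) (n k : ℕ) : (node f n).take k = node f (min k n) := by
  rw [node, node, ← List.map_take, List.take_range]

theorem node_prefix {f : ℕ → Bool} {n k : ℕ} (h : n ≤ k) : node f n <+: node f k := by
  rw [List.prefix_iff_eq_take, node_length, node_take, min_eq_left h]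

theorem prefix_node {f : ℕ → Bool} {s : List Bool} {n : ℕ} (h : s <+: node f n) :
    ∃ k, s = node f k := by
  rw [List.prefix_iff_eq_take, node_take] at h
  exact ⟨_, h⟩

/-- The order relation. -/
def Q.le : Q → Q → Prop
  | .m s, .m t => s = t
  | .m s, .x t => s <+: t
  | .m s, .z f => ∃ n, s = node f n
  | .x _, .m _ => False
  | .x s, .x t => s <+: t
  | .x s, .z f => ∃ n, s = node f n
  | .z _, .m _ => False
  | .z _, .x _ => False
  | .z f, .z g => f = g

theorem prefix_antisymm {s t : List Bool} (h1 : s <+: t) (h2 : t <+: s) : s = t :=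
  h1.eq_of_length (le_antisymm h1.length_le h2.length_le)

instance : PartialOrder Q where
  le := Q.le
  le_refl a := by cases a <;> simp [Q.le]
  le_trans a b c hab hbc := by
    cases a <;> cases b <;> cases c <;> simp only [Q.le] at hab hbc ⊢
    · exact hab.trans hbc
    · subst hab; exact hbc
    · subst hab; exact hbc
    · exact hab.trans hbc
    · obtain ⟨n, rfl⟩ := hbc
      exact prefix_node hab
    · subst hbc; exact hab
    · exact hab.trans hbc
    · obtain ⟨n, rfl⟩ := hbc
      exact prefix_node hab
    · subst hbc; exact hab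
    · exact hab.trans hbc
  le_antisymm a b hab hba := by
    cases a <;> cases b <;> simp only [Q.le] at hab hba
    · subst hab; rfl
    · exact congrArg _ (prefix_antisymm hab hba)
    · subst hab; rfl

instance : Nonempty Q := ⟨.x []⟩

theorem le_mm {s t : List Bool} : Q.m s ≤ Q.m t ↔ s = t := Iff.rfl
theorem le_mx {s t : List Bool} : Q.m s ≤ Q.x t ↔ s <+: t := Iff.rfl
theorem le_mz {s : List Bool} {f : ℕ → Bool} : Q.m s ≤ Q.z f ↔ ∃ n, s = node f n := Iff.rfl
theorem le_xm {s t : List Bool} : Q.x s ≤ Q.m t ↔ False := Iff.rfl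
theorem le_xx {s t : List Bool} : Q.x s ≤ Q.x t ↔ s <+: t := Iff.rfl
theorem le_xz {s : List Bool} {f : ℕ → Bool} : Q.x s ≤ Q.z f ↔ ∃ n, s = node f n := Iff.rfl
theorem le_zm {f : ℕ → Bool} {t : List Bool} : Q.z f ≤ Q.m t ↔ False := Iff.rfl
theorem le_zx {f : ℕ → Bool} {t : List Bool} : Q.z f ≤ Q.x t ↔ False := Iff.rfl
theorem le_zz {f g : ℕ → Bool} : Q.z f ≤ Q.z g ↔ f = g := Iff.rfl

/-- comparability of two members of a chain, in the weak form -/
theorem chain_total {c : Set Q} (hc : IsChain (· ≤ ·) c) {a b : Q} (ha : a ∈ c) (hb : b ∈ c) :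
    a ≤ b ∨ b ≤ a := hc.total ha hb

/-- A maximal chain contains every point comparable to all its members. -/
theorem mem_of_comparable {C : Set Q} (hC : IsMaxChain (· ≤ ·) C) {a : Q}
    (h : ∀ p ∈ C, a ≤ p ∨ p ≤ a) : a ∈ C := by
  have hchain : IsChain (· ≤ ·) (insert a C) := hC.1.insert (fun b hb _ => h b hb)
  have := hC.2 hchain (Set.subset_insert a C)
  rw [this]
  exact Set.mem_insert a C

theorem chain_complete (c : Set Q) (hc : IsChain (· ≤ ·) c) (hne : c.Nonempty) :
    (∃ a : Q, IsLUB c a) ∧ (∃ a : Q, IsGLB c a) := by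
  classical
  by_cases hm : ∃ s, Q.x s ∈ c
  · constructor
    · by_cases hz : ∃ f, Q.z f ∈ c
      · obtain ⟨f, hf⟩ := hz
        refine ⟨Q.z f, ?_, fun b hb => hb hf⟩
        intro p hp
        rcases chain_total hc hp hf with h | h
        · exact h
        · cases p with
          | m s => exact (le_zm.1 h).elim
          | x s => exact (le_zx.1 h).elim
          | z g => rw [le_zz] at h; subst h; exact le_refl _
      · by_cases hb : ∃ N, ∀ s, Q.x s ∈ c → s.length ≤ N
        · -- bounded length: take a longest one
          have hex : ∃ n, ∃ s, Q.x s ∈ c ∧ s.length = n := by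
            obtain ⟨s, hs⟩ := hm; exact ⟨_, s, hs, rfl⟩
          obtain ⟨N, hN⟩ := hb
          have hspec := Nat.findGreatest_spec (P := fun n => ∃ s, Q.x s ∈ c ∧ s.length = n) (n := N)
            (m := hex.choose) (by
              obtain ⟨s, hs, hl⟩ := hex.choose_spec
              rw [← hl]; exact hN s hs) hex.choose_spec
          obtain ⟨s, hs, hl⟩ := hspec
          refine ⟨Q.x s, ?_, fun b hb => hb hs⟩
          intro p hp
          rcases chain_total hc hp hs with h | h
          · exact h
          · cases p with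
            | m t => exact (le_xm.1 h).elim
            | x t =>
              rw [le_xx] at h
              have h1 : t.length ≤ s.length := by
                rw [hl]
                exact Nat.le_findGreatest (hN t hp) ⟨t, hp, rfl⟩
              have : s = t := h.eq_of_length (le_antisymm h.length_le h1)
              subst this; exact le_refl _
            | z g => exact (hz ⟨g, hp⟩).elim
        · push Not at hb
          -- unbounded: the limit branch
          choose S hS hlen using hb
          -- S n ∈ c with length > n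
          have hcomp : ∀ s t, Q.x s ∈ c → Q.x t ∈ c → s.length ≤ t.length → s <+: t := by
            intro s t hs ht hle
            rcases chain_total hc hs ht with h | h
            · exact h
            · rw [le_xx] at h
              have : t = s := h.eq_of_length (le_antisymm h.length_le hle)
              rw [this]
          let f : ℕ → Bool := fun i => (S i).getD i false
          have hnode : ∀ s, Q.x s ∈ c → s = node f s.length := by
            intro s hs
            apply List.ext_getElem
            · rw [node_length]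
            · intro i h1 h2
              simp only [node, List.getElem_map, List.getElem_range]
              have hi : i < (S i).length := hlen i
              change s[i] = (S i).getD i false
              rw [List.getD_eq_getElem (S i) false hi]
              rcases le_total s.length (S i).length with h | h
              · exact (hcomp s (S i) hs (hS i) h).getElem h1
              · exact ((hcomp (S i) s (hS i) hs h).getElem hi).symm
          refine ⟨Q.z f, ?_, ?_⟩
          · intro p hp
            cases p with
            | m s =>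
              have hc' : Q.m s ≤ Q.x (S 0) := by
                rcases chain_total hc hp (hS 0) with h | h
                · exact h
                · exact (le_xm.1 h).elim
              exact le_trans hc' (le_xz.2 ⟨_, hnode _ (hS 0)⟩)
            | x s => exact le_xz.2 ⟨_, hnode s hp⟩
            | z g => exact (hz ⟨g, hp⟩).elim
          · intro b hb
            cases b with
            | m t => exact (le_xm.1 (hb (hS 0))).elim
            | x t =>
              have h1 := (le_xx.1 (hb (hS t.length))).length_le
              have h2 := hlen t.length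
              omega
            | z g =>
              rw [le_zz]
              funext i
              obtain ⟨n, hn⟩ := le_xz.1 (hb (hS i))
              have hln : n = (S i).length := by
                have := congrArg List.length hn
                rw [node_length] at this; exact this.symm
              have hf : S i = node f (S i).length := hnode _ (hS i)
              rw [hln] at hn
              have hfg : node f (S i).length = node g (S i).length := hf.symm.trans hn
              have hi : i < (S i).length := hlen i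
              have h3 : (node f (S i).length)[i]'(by rw [node_length]; exact hi)
                  = (node g (S i).length)[i]'(by rw [node_length]; exact hi) := by
                simp only [hfg]
              simpa [node] using h3
    · by_cases hmm : ∃ s, Q.m s ∈ c
      · obtain ⟨s, hs⟩ := hmm
        refine ⟨Q.m s, ?_, fun b hb => hb hs⟩
        intro p hp
        rcases chain_total hc hs hp with h | h
        · exact h
        · cases p with
          | m t => rw [le_mm] at h; subst h; exact le_refl _
          | x t => exact (le_xm.1 h).elim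
          | z g => exact (le_zm.1 h).elim
      · have hex : ∃ n, ∃ s, Q.x s ∈ c ∧ s.length = n := by
          obtain ⟨s, hs⟩ := hm; exact ⟨_, s, hs, rfl⟩
        obtain ⟨s, hs, hl⟩ := Nat.find_spec hex
        refine ⟨Q.x s, ?_, fun b hb => hb hs⟩
        intro p hp
        rcases chain_total hc hs hp with h | h
        · exact h
        · cases p with
          | m t => exact (hmm ⟨t, hp⟩).elim
          | x t =>
            rw [le_xx] at h
            have h1 : s.length ≤ t.length := by
              rw [hl]; exact Nat.find_min' hex ⟨t, hp, rfl⟩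
            have : t = s := h.eq_of_length (le_antisymm h.length_le h1)
            subst this; exact le_refl _
          | z g => exact (le_zx.1 h).elim
  · -- no tree points: c has at most an m and a z
    have key : ∀ p ∈ c, ∀ q ∈ c, (∃ s, p = Q.m s) → p ≤ q := by
      rintro p hp q hq ⟨s, rfl⟩
      rcases chain_total hc hp hq with h | h
      · exact h
      · cases q with
        | m t => rw [le_mm] at h; subst h; exact le_refl _
        | x t => exact (le_xm.1 h).elim
        | z g => exact (le_zm.1 h).elim
    have key2 : ∀ p ∈ c, ∀ q ∈ c, (∃ s, p = Q.z s) → q ≤ p := by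
      rintro p hp q hq ⟨s, rfl⟩
      rcases chain_total hc hp hq with h | h
      · cases q with
        | m t => exact (le_zm.1 h).elim
        | x t => exact (le_zx.1 h).elim
        | z g => rw [le_zz] at h; subst h; exact le_refl _
      · exact h
    obtain ⟨p, hp⟩ := hne
    constructor
    · by_cases hz : ∃ f, Q.z f ∈ c
      · obtain ⟨f, hf⟩ := hz
        exact ⟨Q.z f, fun q hq => key2 _ hf q hq ⟨f, rfl⟩, fun b hb => hb hf⟩
      · refine ⟨p, ?_, fun b hb => hb hp⟩
        intro q hq
        cases q with
        | m t => exact key _ hq _ hp ⟨t, rfl⟩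
        | x t => exact (hm ⟨t, hq⟩).elim
        | z g => exact (hz ⟨g, hq⟩).elim
    · by_cases hmm : ∃ s, Q.m s ∈ c
      · obtain ⟨s, hs⟩ := hmm
        exact ⟨Q.m s, fun q hq => key _ hs q hq ⟨s, rfl⟩, fun b hb => hb hs⟩
      · refine ⟨p, ?_, fun b hb => hb hp⟩
        intro q hq
        cases q with
        | m t => exact (hmm ⟨t, hq⟩).elim
        | x t => exact (hm ⟨t, hq⟩).elim
        | z g => exact key2 _ hq _ hp ⟨g, rfl⟩

/-- The maximal chain along the branch `f`, starting at level `n`. -/
def D (f : ℕ → Bool) (n : ℕ) : Set Q :=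
  {p | p = Q.m (node f n) ∨ (∃ k, n ≤ k ∧ p = Q.x (node f k)) ∨ p = Q.z f}

theorem node_prefix_node {f : ℕ → Bool} {n k : ℕ} (h : node f n <+: node f k) : n ≤ k := by
  have := h.length_le
  simpa [node_length] using this

theorem D_max (f : ℕ → Bool) (n : ℕ) : IsMaxChain (· ≤ ·) (D f n) := by
  constructor
  · rintro p (rfl | ⟨k, hk, rfl⟩ | rfl) q (rfl | ⟨l, hl, rfl⟩ | rfl) _
    · exact Or.inl (le_refl _)
    · exact Or.inl (le_mx.2 (node_prefix hl))
    · exact Or.inl (le_mz.2 ⟨n, rfl⟩)
    · exact Or.inr (le_mx.2 (node_prefix hk))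
    · rcases le_total k l with h | h
      · exact Or.inl (le_xx.2 (node_prefix h))
      · exact Or.inr (le_xx.2 (node_prefix h))
    · exact Or.inl (le_xz.2 ⟨k, rfl⟩)
    · exact Or.inr (le_mz.2 ⟨n, rfl⟩)
    · exact Or.inr (le_xz.2 ⟨l, rfl⟩)
    · exact Or.inl (le_refl _)
  · intro t ht hsub
    apply Set.Subset.antisymm hsub
    intro p hp
    have hm : Q.m (node f n) ∈ t := hsub (Or.inl rfl)
    have hz : Q.z f ∈ t := hsub (Or.inr (Or.inr rfl))
    have h1 := chain_total ht hp hm
    have h2 := chain_total ht hp hz
    cases p with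
    | m s =>
      rw [le_mm, le_mm] at h1
      rcases h1 with h | h
      · exact Or.inl (by rw [h])
      · exact Or.inl (by rw [h])
    | x s =>
      rw [le_xm, le_mx] at h1
      rw [le_xz, le_zx] at h2
      rcases h1 with h1 | h1
      · exact h1.elim
      · rcases h2 with ⟨k, rfl⟩ | h2
        · exact Or.inr (Or.inl ⟨k, node_prefix_node h1, rfl⟩)
        · exact h2.elim
    | z g =>
      rw [le_zz, le_zz] at h2
      rcases h2 with h | h
      · exact Or.inr (Or.inr (by rw [h]))
      · exact Or.inr (Or.inr (by rw [h]))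

theorem exists_node (s : List Bool) : ∃ f n, s = node f n := by
  refine ⟨fun i => s.getD i false, s.length, ?_⟩
  apply List.ext_getElem
  · rw [node_length]
  · intro i h1 h2
    simp only [node, List.getElem_map, List.getElem_range]
    rw [List.getD_eq_getElem s false h1]

/-- A maximal chain contains some `z f`. -/
theorem exists_top {C : Set Q} (hC : IsMaxChain (· ≤ ·) C) : ∃ f, Q.z f ∈ C := by
  have hne : C.Nonempty := by
    by_contra h
    rw [Set.not_nonempty_iff_eq_empty] at h
    have : Q.x [] ∈ C := mem_of_comparable hC (by rw [h]; intro p hp; exact hp.elim)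
    rw [h] at this; exact this.elim
  obtain ⟨a, ha⟩ := (chain_complete C hC.1 hne).1
  have key : ∀ b, a ≤ b → b ∈ C := fun b hb =>
    mem_of_comparable hC (fun p hp => Or.inr (le_trans (ha.1 hp) hb))
  cases a with
  | m s =>
    obtain ⟨f, n, rfl⟩ := exists_node s
    exact ⟨f, key _ (le_mz.2 ⟨n, rfl⟩)⟩
  | x s =>
    obtain ⟨f, n, rfl⟩ := exists_node s
    exact ⟨f, key _ (le_xz.2 ⟨n, rfl⟩)⟩
  | z f => exact ⟨f, key _ (le_refl _)⟩

theorem le_z_of_mem {C : Set Q} (hC : IsMaxChain (· ≤ ·) C) {f : ℕ → Bool} (hf : Q.z f ∈ C)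
    {p : Q} (hp : p ∈ C) : p ≤ Q.z f := by
  rcases chain_total hC.1 hp hf with h | h
  · exact h
  · cases p with
    | m t => exact (le_zm.1 h).elim
    | x t => exact (le_zx.1 h).elim
    | z g => rw [le_zz] at h; subst h; exact le_refl _

theorem x_mem_of_m_mem {C : Set Q} (hC : IsMaxChain (· ≤ ·) C) {s : List Bool}
    (h : Q.m s ∈ C) : Q.x s ∈ C := by
  apply mem_of_comparable hC
  intro p hp
  rcases chain_total hC.1 h hp with h1 | h1
  · cases p with
    | m t => rw [le_mm] at h1; subst h1; exact Or.inr (le_mx.2 List.prefix_rfl)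
    | x t => exact Or.inl h1
    | z g => exact Or.inl h1
  · cases p with
    | m t => rw [le_mm] at h1; subst h1; exact Or.inr (le_mx.2 List.prefix_rfl)
    | x t => exact (le_xm.1 h1).elim
    | z g => exact (le_zm.1 h1).elim

theorem x_up {C : Set Q} (hC : IsMaxChain (· ≤ ·) C) {f : ℕ → Bool} (hf : Q.z f ∈ C)
    {n k : ℕ} (hn : Q.x (node f n) ∈ C) (hk : n ≤ k) : Q.x (node f k) ∈ C := by
  apply mem_of_comparable hC
  intro p hp
  have h1 := le_z_of_mem hC hf hp
  cases p with
  | m s =>
    rcases chain_total hC.1 hp hn with h | h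
    · exact Or.inr (le_mx.2 ((le_mx.1 h).trans (node_prefix hk)))
    · exact (le_xm.1 h).elim
  | x s =>
    obtain ⟨j, rfl⟩ := le_xz.1 h1
    rcases le_total j k with h | h
    · exact Or.inr (le_xx.2 (node_prefix h))
    · exact Or.inl (le_xx.2 (node_prefix h))
  | z g =>
    rw [le_zz] at h1; subst h1; exact Or.inl (le_xz.2 ⟨k, rfl⟩)

theorem exists_x {C : Set Q} (hC : IsMaxChain (· ≤ ·) C) {f : ℕ → Bool} (hf : Q.z f ∈ C) :
    ∃ n, Q.x (node f n) ∈ C := by
  by_contra hno
  have hnox : ∀ s, Q.x s ∉ C := by
    intro s hs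
    obtain ⟨n, rfl⟩ := le_xz.1 (le_z_of_mem hC hf hs)
    exact hno ⟨n, hs⟩
  apply hnox (node f 0)
  apply mem_of_comparable hC
  intro p hp
  cases p with
  | m s => exact (hnox s (x_mem_of_m_mem hC hp)).elim
  | x s => exact (hnox s hp).elim
  | z g =>
    have h1 := le_z_of_mem hC hf hp
    rw [le_zz] at h1; subst h1; exact Or.inl (le_xz.2 ⟨0, rfl⟩)

theorem exists_two {F : Set (Set Q)} {A : Set Q} (hF : ∀ C ∈ F, IsMaxChain (· ≤ ·) C)
    (hdisj : F.PairwiseDisjoint id)
    (hcut : ∀ C : Set Q, IsMaxChain (· ≤ ·) C → (A ∩ C).Nonempty)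
    (hA : ∀ a ∈ A, ∃ C ∈ F, a ∈ C) :
    ∃ C ∈ F, ∃ a ∈ A, ∃ b ∈ A, a ≠ b ∧ a ∈ C ∧ b ∈ C := by
  by_contra hno
  -- two chains of F sharing a point are equal
  have hEq : ∀ C ∈ F, ∀ C' ∈ F, ∀ p, p ∈ C → p ∈ C' → C = C' := by
    intro C hC C' hC' p hp hp'
    by_contra hne
    exact Set.disjoint_left.1 (hdisj hC hC' hne) hp hp'
  -- two points of A in one chain of F are equal
  have hOne : ∀ C ∈ F, ∀ a ∈ A, ∀ b ∈ A, a ∈ C → b ∈ C → a = b := by
    intro C hC a ha b hb haC hbC
    by_contra hab
    exact hno ⟨C, hC, a, ha, b, hb, hab, haC, hbC⟩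
  have hX : ∀ s, Q.x s ∉ A := by
    intro s hs
    obtain ⟨C, hCF, hsC⟩ := hA _ hs
    have hC := hF C hCF
    obtain ⟨f, hf⟩ := exists_top hC
    obtain ⟨n, rfl⟩ := le_xz.1 (le_z_of_mem hC hf hsC)
    obtain ⟨p, hpA, hpD⟩ := hcut _ (D_max f (n + 1))
    rcases hpD with rfl | ⟨k, hk, rfl⟩ | rfl
    · obtain ⟨C', hCF', hpC'⟩ := hA _ hpA
      have h1 := x_mem_of_m_mem (hF C' hCF') hpC'
      have h2 := x_up hC hf hsC (Nat.le_succ n)
      have h3 := hEq C hCF C' hCF' _ h2 h1
      subst h3
      have h4 := hOne C hCF _ hs _ hpA hsC hpC'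
      cases h4
    · have h2 := x_up hC hf hsC (le_trans (Nat.le_succ n) hk)
      have h4 := hOne C hCF _ hs _ hpA hsC h2
      have h5 := node_inj (Q.x.inj h4)
      omega
    · have h4 := hOne C hCF _ hs _ hpA hsC hf
      cases h4
  have hM : ∀ s, Q.m s ∉ A := by
    intro s hs
    obtain ⟨C, hCF, hsC⟩ := hA _ hs
    have hC := hF C hCF
    have hxC := x_mem_of_m_mem hC hsC
    obtain ⟨f, hf⟩ := exists_top hC
    obtain ⟨n, rfl⟩ := le_xz.1 (le_z_of_mem hC hf hxC)
    obtain ⟨p, hpA, hpD⟩ := hcut _ (D_max f (n + 1))
    rcases hpD with rfl | ⟨k, hk, rfl⟩ | rfl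
    · obtain ⟨C', hCF', hpC'⟩ := hA _ hpA
      have h1 := x_mem_of_m_mem (hF C' hCF') hpC'
      have h2 := x_up hC hf hxC (Nat.le_succ n)
      have h3 := hEq C hCF C' hCF' _ h2 h1
      subst h3
      have h4 := hOne C hCF _ hs _ hpA hsC hpC'
      have h5 := node_inj (Q.m.inj h4)
      omega
    · exact hX _ hpA
    · have h4 := hOne C hCF _ hs _ hpA hsC hf
      cases h4
  have hZ : ∀ f, Q.z f ∈ A := by
    intro f
    obtain ⟨p, hpA, hpD⟩ := hcut _ (D_max f 0)
    rcases hpD with rfl | ⟨k, hk, rfl⟩ | rfl
    · exact (hM _ hpA).elim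
    · exact (hX _ hpA).elim
    · exact hpA
  -- each branch gets a tree point of its own
  have hch : ∀ f : ℕ → Bool, ∃ s : List Bool, ∃ C ∈ F, Q.z f ∈ C ∧ Q.x s ∈ C := by
    intro f
    obtain ⟨C, hCF, hfC⟩ := hA _ (hZ f)
    obtain ⟨n, hn⟩ := exists_x (hF C hCF) hfC
    exact ⟨_, C, hCF, hfC, hn⟩
  choose g hg using hch
  have hinj : Function.Injective g := by
    intro f f' hff
    obtain ⟨C, hCF, h1, h2⟩ := hg f
    obtain ⟨C', hCF', h1', h2'⟩ := hg f'
    rw [← hff] at h2'
    have h3 := hEq C hCF C' hCF' _ h2 h2'
    subst h3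
    exact Q.z.inj (hOne C hCF _ (hZ f) _ (hZ f') h1 h1')
  classical
  let e : Set ℕ → (ℕ → Bool) := fun S i => decide (i ∈ S)
  have he : Function.Injective e := by
    intro S T hST
    ext i
    have := congrFun hST i
    simpa [e] using this
  have hfin : Function.Injective (fun S : Set ℕ => Encodable.encode (g (e S))) :=
    Encodable.encode_injective.comp (hinj.comp he)
  exact Function.cantor_injective _ hfin

/-- The tree points form a countable cutset. -/
theorem countable_cutset : (Set.range Q.x).Countable ∧
    ∀ C : Set Q, IsMaxChain (· ≤ ·) C → (Set.range Q.x ∩ C).Nonempty := by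
  refine ⟨Set.countable_range _, fun C hC => ?_⟩
  obtain ⟨f, hf⟩ := exists_top hC
  obtain ⟨n, hn⟩ := exists_x hC hf
  exact ⟨_, ⟨_, rfl⟩, hn⟩

theorem countable_chain (c : Set Q) (hc : IsChain (· ≤ ·) c) : c.Countable := by
  have h1 : c ⊆ (Set.range Q.x ∪ Set.range Q.m) ∪ {p ∈ c | ∃ f, p = Q.z f} := by
    intro p hp
    cases p with
    | m s => exact Or.inl (Or.inr ⟨s, rfl⟩)
    | x s => exact Or.inl (Or.inl ⟨s, rfl⟩)
    | z f => exact Or.inr ⟨hp, f, rfl⟩
  have h2 : {p ∈ c | ∃ f, p = Q.z f}.Subsingleton := by
    rintro p ⟨hp, f, rfl⟩ q ⟨hq, g, rfl⟩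
    rcases hc.total hp hq with h | h
    · rw [le_zz] at h; rw [h]
    · rw [le_zz] at h; rw [h]
  exact (((Set.countable_range _).union (Set.countable_range _)).union h2.countable).mono h1

/-- The word with the only letter `true` at place `n`. -/
def unit (n : ℕ) : ℕ → Bool := fun i => decide (i = n)

theorem D_unit_disjoint {n m : ℕ} (h : n ≠ m) :
    Disjoint (D (unit n) (n + 1)) (D (unit m) (m + 1)) := by
  have key : ∀ k l, n + 1 ≤ k → m + 1 ≤ l → node (unit n) k ≠ node (unit m) l := by
    intro k l hk hl he
    have hlen : k = l := by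
      have := congrArg List.length he
      simpa [node_length] using this
    subst hlen
    have h1 : (node (unit n) k)[n]'(by rw [node_length]; omega) =
        (node (unit m) k)[n]'(by rw [node_length]; omega) := by
      simp only [he]
    simp [node, unit] at h1
    exact h h1
  have key2 : unit n ≠ unit m := by
    intro he
    have := congrFun he n
    simp [unit] at this
    exact h this
  rw [Set.disjoint_left]
  rintro p (rfl | ⟨k, hk, rfl⟩ | rfl) (hp | ⟨l, hl, hp⟩ | hp)
  · exact key _ _ le_rfl le_rfl (Q.m.inj hp)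
  · cases hp
  · cases hp
  · cases hp
  · exact key _ _ hk hl (Q.x.inj hp)
  · cases hp
  · cases hp
  · cases hp
  · exact key2 (Q.z.inj hp)

theorem infinite_disjoint : ∃ F : Set (Set Q), F.Infinite ∧
    (∀ C ∈ F, IsMaxChain (· ≤ ·) C) ∧ F.PairwiseDisjoint id := by
  refine ⟨Set.range fun n => D (unit n) (n + 1), ?_, ?_, ?_⟩
  · apply Set.infinite_range_of_injective
    intro n m hnm
    by_contra hne
    have h1 := D_unit_disjoint hne
    have h2 : D (unit n) (n + 1) = D (unit m) (m + 1) := hnm
    rw [← h2, disjoint_self] at h1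
    have h3 : Q.z (unit n) ∈ D (unit n) (n + 1) := Or.inr (Or.inr rfl)
    rw [h1] at h3
    exact h3
  · rintro _ ⟨n, rfl⟩
    exact D_max _ _
  · rintro _ ⟨n, rfl⟩ _ ⟨m, rfl⟩ hne
    apply D_unit_disjoint
    rintro rfl
    exact hne rfl

end Pool.Agent.Helper52.MengerQ
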