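import Mathlib

/-!
Definitions for problem MP_e0c419_co (variance-balanced block designs).
-/

set_option autoImplicit false

namespace Pool.Agent.Helper52.VB

/-- The concurrence of the points `i` and `j` in the collection `D` of blocks: the sum over the
blocks `B` of the product of the multiplicities of `i` and `j` in `B`. -/
def conc {V : Type} [DecidableEq V] (D : Multiset (Multiset V)) (i j : V) : ℕ :=
  (D.map fun B => B.count i * B.count j).sum

/-- `B` is a block of size `k`: a multiset of `k` points, not a single point repeated `k` times. -/
def IsBlock {V : Type} (k : ℕ) (B : Multiset V) : Prop :=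
  B.card = k ∧ ∀ i : V, B ≠ Multiset.replicate k i

/-- `D` is a `VB(v, k, l)` design on the point set `Fin v`: a finite multiset of blocks of size `k`
in which any two distinct points have concurrence `l`. The number of blocks is `D.card`. -/
def IsVB (v k l : ℕ) (D : Multiset (Multiset (Fin v))) : Prop :=
  (∀ B ∈ D, IsBlock k B) ∧ ∀ i j : Fin v, i ≠ j → conc D i j = l

end Pool.Agent.Helper52.VB
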