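import Mathlib
import Pool.Agent.Helper52.VBDefs

/-!
Basic lemmas for variance-balanced designs.
-/

set_option autoImplicit false

namespace Pool.Agent.Helper52.VB

variable {V : Type} [DecidableEq V]

theorem conc_zero (i j : V) : conc (0 : Multiset (Multiset V)) i j = 0 := by simp [conc]

theorem conc_add (D E : Multiset (Multiset V)) (i j : V) :
    conc (D + E) i j = conc D i j + conc E i j := by simp [conc]

theorem conc_singleton (B : Multiset V) (i j : V) :
    conc ({B} : Multiset (Multiset V)) i j = B.count i * B.count j := by simp [conc]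

theorem conc_comm (D : Multiset (Multiset V)) (i j : V) : conc D i j = conc D j i := by
  simp only [conc]
  congr 1
  apply Multiset.map_congr rfl
  intro B _
  exact Nat.mul_comm _ _

theorem conc_sum {ι : Type} (s : Finset ι) (f : ι → Multiset (Multiset V)) (i j : V) :
    conc (∑ a ∈ s, f a) i j = ∑ a ∈ s, conc (f a) i j := by
  classical
  induction s using Finset.induction_on with
  | empty => simp [conc_zero]
  | insert a s ha ih => rw [Finset.sum_insert ha, Finset.sum_insert ha, conc_add, ih]

theorem conc_nsmul (n : ℕ) (D : Multiset (Multiset V)) (i j : V) :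
    conc (n • D) i j = n * conc D i j := by
  induction n with
  | zero => simp [conc_zero]
  | succ n ih => rw [succ_nsmul, conc_add, ih]; ring

/-- The additive monoid generated by the numbers `a * (k - a)`, `1 ≤ a ≤ k - 1`. -/
def Sgrp (k : ℕ) : AddSubmonoid ℕ :=
  AddSubmonoid.closure {n | ∃ a, 1 ≤ a ∧ a < k ∧ n = a * (k - a)}

theorem isBlock_two {i j : V} (hij : i ≠ j) {k a : ℕ} (h1 : 1 ≤ a) (h2 : a < k) :
    IsBlock k (Multiset.replicate a i + Multiset.replicate (k - a) j) := by
  refine ⟨by simp; omega, ?_⟩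
  intro x hx
  have hi : i ∈ Multiset.replicate a i + Multiset.replicate (k - a) j := by
    rw [Multiset.mem_add, Multiset.mem_replicate]; left; exact ⟨by omega, rfl⟩
  have hj : j ∈ Multiset.replicate a i + Multiset.replicate (k - a) j := by
    rw [Multiset.mem_add, Multiset.mem_replicate, Multiset.mem_replicate]; right
    exact ⟨by omega, rfl⟩
  rw [hx, Multiset.mem_replicate] at hi hj
  exact hij (hi.2.trans hj.2.symm)

/-- Filling one pair with a value of the semigroup. -/
theorem pair_fill {i j : V} (hij : i ≠ j) {k n : ℕ} (hn : n ∈ Sgrp k) :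
    ∃ D : Multiset (Multiset V), (∀ B ∈ D, IsBlock k B) ∧ ∀ x y, x ≠ y →
      conc D x y = if (x = i ∧ y = j) ∨ (x = j ∧ y = i) then n else 0 := by
  unfold Sgrp at hn
  induction hn using AddSubmonoid.closure_induction with
  | mem n hn =>
    obtain ⟨a, h1, h2, rfl⟩ := hn
    refine ⟨{Multiset.replicate a i + Multiset.replicate (k - a) j}, ?_, ?_⟩
    · intro B hB
      rw [Multiset.mem_singleton] at hB
      rw [hB]
      exact isBlock_two hij h1 h2
    · intro x y hxy
      rw [conc_singleton]
      simp only [Multiset.count_add, Multiset.count_replicate]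
      by_cases hxi : x = i
      · by_cases hyj : y = j
        · rw [hxi, hyj]
          simp [hij, hij.symm]
        · have hyi : y ≠ i := fun h => hxy (hxi.trans h.symm)
          simp [hxi, hyj, hyi, Ne.symm hyi, Ne.symm hyj, hij, hij.symm]
      · by_cases hxj : x = j
        · by_cases hyi : y = i
          · rw [hxj, hyi]
            simp [hij, hij.symm, Nat.mul_comm]
          · have hyj : y ≠ j := fun h => hxy (hxj.trans h.symm)
            simp [hxj, hyj, hyi, Ne.symm hyi, Ne.symm hyj, hij, hij.symm]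
        · simp [hxi, hxj, Ne.symm hxi, Ne.symm hxj]
  | zero => exact ⟨0, by simp, by intro x y _; simp [conc_zero]⟩
  | add a b _ _ ihD ihE =>
    obtain ⟨D, hD, hD'⟩ := ihD
    obtain ⟨E, hE, hE'⟩ := ihE
    refine ⟨D + E, ?_, ?_⟩
    · intro B hB
      rcases Multiset.mem_add.1 hB with h | h
      · exact hD B h
      · exact hE B h
    · intro x y hxy
      rw [conc_add, hD' x y hxy, hE' x y hxy]
      split_ifs <;> rfl

/-- Filling all pairs with prescribed values of the semigroup. -/
theorem fill [Fintype V] [LinearOrder V] {k : ℕ} (w : V → V → ℕ) (hw : ∀ i j, w i j = w j i)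
    (hS : ∀ i j, i < j → w i j ∈ Sgrp k) :
    ∃ D : Multiset (Multiset V), (∀ B ∈ D, IsBlock k B) ∧ ∀ x y, x ≠ y → conc D x y = w x y := by
  classical
  have h : ∀ p : V × V, ∃ D : Multiset (Multiset V), (∀ B ∈ D, IsBlock k B) ∧ ∀ x y, x ≠ y →
      conc D x y = if p.1 < p.2 ∧ ((x = p.1 ∧ y = p.2) ∨ (x = p.2 ∧ y = p.1)) then w p.1 p.2
        else 0 := by
    rintro ⟨i, j⟩
    by_cases hij : i < j
    · obtain ⟨D, hD, hD'⟩ := pair_fill (ne_of_lt hij) (hS i j hij)
      refine ⟨D, hD, ?_⟩
      intro x y hxy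
      rw [hD' x y hxy]
      simp [hij]
    · exact ⟨0, by simp, by intro x y _; simp [conc_zero, hij]⟩
  choose f hf hf' using h
  refine ⟨∑ p : V × V, f p, ?_, ?_⟩
  · intro B hB
    rw [Multiset.mem_sum] at hB
    obtain ⟨p, -, hp⟩ := hB
    exact hf p B hp
  · intro x y hxy
    rw [conc_sum]
    have h1 : ∀ p : V × V, conc (f p) x y =
        if p = (min x y, max x y) then w x y else 0 := by
      rintro ⟨i, j⟩
      rw [hf' (i, j) x y hxy]
      rcases lt_or_gt_of_ne hxy with h | h
      · rw [min_eq_left h.le, max_eq_right h.le]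
        by_cases h2 : (i, j) = (x, y)
        · rw [if_pos h2]
          obtain ⟨rfl, rfl⟩ := Prod.mk.inj h2
          rw [if_pos ⟨h, Or.inl ⟨rfl, rfl⟩⟩]
        · rw [if_neg h2, if_neg]
          rintro ⟨h3, ⟨h4, h5⟩ | ⟨h4, h5⟩⟩
          · exact h2 (by rw [h4, h5])
          · simp only at h3 h4 h5
            rw [h4, h5] at h
            exact absurd h3 (not_lt.2 h.le)
      · rw [min_eq_right h.le, max_eq_left h.le]
        by_cases h2 : (i, j) = (y, x)
        · rw [if_pos h2]
          obtain ⟨rfl, rfl⟩ := Prod.mk.inj h2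
          rw [if_pos ⟨h, Or.inr ⟨rfl, rfl⟩⟩]
          exact hw _ _
        · rw [if_neg h2, if_neg]
          rintro ⟨h3, ⟨h4, h5⟩ | ⟨h4, h5⟩⟩
          · simp only at h3 h4 h5
            rw [h4, h5] at h
            exact absurd h3 (not_lt.2 h.le)
          · exact h2 (by rw [h4, h5])
    simp [h1]

/-- Completing a partial collection of blocks. -/
theorem complete [Fintype V] [LinearOrder V] {k l : ℕ} (D0 : Multiset (Multiset V))
    (h0 : ∀ B ∈ D0, IsBlock k B)
    (hS : ∀ i j, i ≠ j → ∃ s ∈ Sgrp k, conc D0 i j + s = l) :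
    ∃ D : Multiset (Multiset V), (∀ B ∈ D, IsBlock k B) ∧ ∀ x y, x ≠ y → conc D x y = l := by
  obtain ⟨E, hE, hE'⟩ := fill (k := k) (fun i j => l - conc D0 i j)
    (fun i j => by rw [conc_comm]) (fun i j hij => by
      obtain ⟨s, hs, h⟩ := hS i j (ne_of_lt hij)
      have : l - conc D0 i j = s := by omega
      rw [this]; exact hs)
  refine ⟨D0 + E, ?_, ?_⟩
  · intro B hB
    rcases Multiset.mem_add.1 hB with h | h
    · exact h0 B h
    · exact hE B h
  · intro x y hxy
    rw [conc_add, hE' x y hxy]
    obtain ⟨s, -, h⟩ := hS x y hxy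
    omega

end Pool.Agent.Helper52.VB
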