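import Mathlib
import Pool.Agent.Helper52.VBBasic

/-!
The semigroup of concurrences on two points, the midpoint design, the parity condition.
-/

set_option autoImplicit false

namespace Pool.Agent.Helper52.VB

theorem gen_mem {k a : ℕ} (ha : a < k) : a * (k - a) ∈ Sgrp k := by
  rcases Nat.eq_zero_or_pos a with h | h
  · subst h; simp
  · exact AddSubmonoid.subset_closure ⟨a, h, ha, rfl⟩

theorem gen1_mem {k : ℕ} (hk : 2 ≤ k) : k - 1 ∈ Sgrp k := by
  have := gen_mem (k := k) (a := 1) (by omega)
  simpa using this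

theorem gen2_mem {k : ℕ} (hk : 2 ≤ k) : 2 * (k - 2) ∈ Sgrp k := by
  rcases Nat.eq_or_lt_of_le hk with h | h
  · subst h; simp
  · exact gen_mem h

/-- The semigroup contains every large number of the right parity. -/
theorem large_mem {k n : ℕ} (hk : 2 ≤ k) (hpar : Even k ∨ Even n) (hn : 18 * k ^ 3 ≤ n ^ 2) :
    n ∈ Sgrp k := by
  -- choose `s` and `t` with `(k-1) * s = n + 2 * t`, `t ≤ k - 2`
  obtain ⟨K, rfl⟩ : ∃ K, k = K + 1 := ⟨k - 1, by omega⟩
  have hK : 1 ≤ K := by omega
  have hst : ∃ s t : ℕ, K * s = n + 2 * t ∧ t ≤ K - 1 := by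
    set s0 := (n + (K - 1)) / K with hs0
    have h1 : K * s0 ≤ n + (K - 1) := Nat.mul_div_le _ _
    have h2 : n + (K - 1) < K * (s0 + 1) := by
      have := Nat.lt_mul_div_succ (n + (K - 1)) (show 0 < K by omega)
      simpa [hs0] using this
    have h2' : n ≤ K * s0 := by
      have : K * (s0 + 1) = K * s0 + K := by ring
      omega
    by_cases hev : Even (K * s0 - n)
    · obtain ⟨t, ht⟩ := hev
      exact ⟨s0, t, by omega, by omega⟩
    · -- then K is odd and we take s0 + 1
      have hKodd : ¬ Even K := by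
        intro hKe
        apply hev
        have hke : Even n := by
          rcases hpar with h | h
          · exfalso
            rw [Nat.even_add_one] at h
            exact h hKe
          · exact h
        exact (Nat.even_sub h2').2 ⟨fun _ => hke, fun _ => hKe.mul_right _⟩
      have h3 : Even (K * (s0 + 1) - n) := by
        have h4 : K * (s0 + 1) - n = (K * s0 - n) + K := by
          have : K * (s0 + 1) = K * s0 + K := by ring
          omega
        rw [h4, Nat.even_add]
        exact ⟨fun h => (hev h).elim, fun h => (hKodd h).elim⟩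
      obtain ⟨t, ht⟩ := h3
      have h5 : K * (s0 + 1) = K * s0 + K := by ring
      exact ⟨s0 + 1, t, by omega, by omega⟩
  obtain ⟨s, t, hs, ht⟩ := hst
  -- the largest triangular number below `t`
  have hex : ∃ i, 1 ≤ i ∧ i * (i - 1) ≤ 2 * t ∧ 2 * t < (i + 1) * i := by
    have h1 := Nat.findGreatest_spec (P := fun i => i * (i - 1) ≤ 2 * t) (n := 2 * t + 2) (m := 1)
      (by omega) (by simp)
    set i := Nat.findGreatest (fun i => i * (i - 1) ≤ 2 * t) (2 * t + 2) with hi
    have h2 : 1 ≤ i := Nat.le_findGreatest (by omega) (by simp)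
    refine ⟨i, h2, h1, ?_⟩
    by_contra hcon
    have h3 : (i + 1) * i ≤ 2 * t := by omega
    have h4 : i + 1 ≤ 2 * t + 2 := by nlinarith
    have h5 := Nat.le_findGreatest (P := fun i => i * (i - 1) ≤ 2 * t) h4 (by simpa using h3)
    omega
  obtain ⟨i, hi1, hi2, hi3⟩ := hex
  obtain ⟨j, rfl⟩ : ∃ j, i = j + 1 := ⟨i - 1, by omega⟩
  simp only [Nat.add_sub_cancel] at hi2
  -- parity: (j+1)*j is even
  obtain ⟨c, hc⟩ : ∃ c, (j + 1) * j = 2 * c := by
    have := Nat.even_mul_succ_self j
    obtain ⟨c, hc⟩ := this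
    exact ⟨c, by rw [Nat.mul_comm]; omega⟩
  have hct : c ≤ t := by omega
  obtain ⟨r, hr⟩ : ∃ r, t = c + r := ⟨t - c, by omega⟩
  have hrj : r ≤ j := by
    have h6 : (j + 1 + 1) * (j + 1) = (j + 1) * j + 2 * (j + 1) := by ring
    omega
  have hjK : j + 1 < K + 1 := by
    by_contra hcon
    have h7 : K ≤ j := by omega
    have h8 : (K + 1) * K ≤ (j + 1) * j := Nat.mul_le_mul (by omega) h7
    have h9 : (K + 1) * K = K * K + K := by ring
    have h10 : K ≤ K * K := Nat.le_mul_of_pos_left K hK
    omega
  have hsum : j + 1 + 2 * r ≤ s := by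
    by_contra hcon
    have h11 : s ≤ 3 * j := by omega
    have h12 : s * s ≤ 9 * (j * j) := by
      calc s * s ≤ (3 * j) * (3 * j) := Nat.mul_le_mul h11 h11
        _ = 9 * (j * j) := by ring
    have h13 : j * j ≤ 2 * (K - 1) := by
      have : j * j ≤ (j + 1) * j := Nat.mul_le_mul_right j (by omega)
      omega
    have h14 : s * s ≤ 18 * (K - 1) := by omega
    have h15 : n ^ 2 ≤ (K * s) ^ 2 := Nat.pow_le_pow_left (by omega) 2
    have h16 : (K * s) ^ 2 = K ^ 2 * (s * s) := by ring
    have h17 : K ^ 2 * (s * s) ≤ K ^ 2 * (18 * (K - 1)) := Nat.mul_le_mul_left _ h14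
    have h18 : K ^ 2 * (18 * (K - 1)) ≤ K ^ 2 * (18 * K) :=
      Nat.mul_le_mul_left _ (by omega)
    have h19 : K ^ 2 * (18 * K) = 18 * K ^ 3 := by ring
    have h20 : 18 * K ^ 3 < 18 * (K + 1) ^ 3 := by
      have : K ^ 3 < (K + 1) ^ 3 := Nat.pow_lt_pow_left (by omega) (by norm_num)
      omega
    omega
  obtain ⟨q, hq⟩ : ∃ q, s = (j + 1) + 2 * r + q := ⟨s - (j + 1 + 2 * r), by omega⟩
  have e1 : n = (j + 1) * (K + 1 - (j + 1)) + r * (2 * (K + 1 - 2)) + q * (K + 1 - 1) := by
    obtain ⟨u, hu⟩ : ∃ u, K = j + 1 + u := ⟨K - (j + 1), by omega⟩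
    have e2 : K + 1 - (j + 1) = u + 1 := by omega
    have e3 : K + 1 - 2 = j + u := by omega
    have e4 : K + 1 - 1 = j + 1 + u := by omega
    rw [e2, e3, e4]
    have hs' : (j + 1 + u) * ((j + 1) + 2 * r + q) = n + 2 * (c + r) := by
      rw [← hq, ← hr, ← hu]; exact hs
    have hc' : (j + 1) * j = 2 * c := hc
    nlinarith
  rw [e1]
  refine (Sgrp (K + 1)).add_mem ((Sgrp (K + 1)).add_mem (gen_mem hjK) ?_) ?_
  · rw [← smul_eq_mul]
    exact (Sgrp (K + 1)).nsmul_mem (gen2_mem (by omega)) r
  · rw [← smul_eq_mul]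
    exact (Sgrp (K + 1)).nsmul_mem (gen1_mem (by omega)) q

/-- The block with the points `a`, `b` once and the point `m a b` with multiplicity `k - 2`. -/
def midBlock {V : Type} (m : V → V → V) (k : ℕ) (a b : V) : Multiset V :=
  {a} + {b} + Multiset.replicate (k - 2) (m a b)

theorem midBlock_isBlock {V : Type} (m : V → V → V) {k : ℕ} (hk : 2 ≤ k) {a b : V}
    (hab : a ≠ b) : IsBlock k (midBlock m k a b) := by
  refine ⟨by simp [midBlock]; omega, ?_⟩
  intro x hx
  have ha : a ∈ midBlock m k a b := by simp [midBlock]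
  have hb : b ∈ midBlock m k a b := by simp [midBlock]
  rw [hx, Multiset.mem_replicate] at ha hb
  exact hab (ha.2.trans hb.2.symm)

/-- indicator of equality -/
def ind {V : Type} [DecidableEq V] (z w : V) : ℕ := if z = w then 1 else 0

theorem ind_mul_ne {V : Type} [DecidableEq V] {x y : V} (hxy : x ≠ y) (w : V) :
    ind x w * ind y w = 0 := by
  unfold ind
  by_cases h : x = w
  · by_cases h2 : y = w
    · exact absurd (h.trans h2.symm) hxy
    · simp [h2]
  · simp [h]

theorem sum_ind_left {V : Type} [Fintype V] [DecidableEq V] (z : V) (G : V → ℕ) :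
    ∑ a : V, ind z a * G a = G z := by
  simp [ind]

theorem sum_ind_quasi {V : Type} [Fintype V] [DecidableEq V] (g : V → V) (z : V)
    (h : ∃! b, g b = z) : ∑ b : V, ind z (g b) = 1 := by
  obtain ⟨b0, hb0, hb1⟩ := h
  rw [Finset.sum_eq_single b0]
  · simp [ind, hb0]
  · intro b _ hb
    unfold ind
    rw [if_neg]
    intro h
    exact hb (hb1 b h.symm)
  · intro h; exact absurd (Finset.mem_univ _) h

/-- The midpoint design: any two points have concurrence `2 k - 3`. -/
theorem mid_design {V : Type} [Fintype V] [LinearOrder V] (m : V → V → V)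
    (hcomm : ∀ a b, m a b = m b a) (hidem : ∀ a, m a a = a)
    (hq : ∀ a c, ∃! b, m a b = c) (k : ℕ) (x y : V) (hxy : x ≠ y) :
    conc (∑ p ∈ (Finset.univ : Finset (V × V)).filter (fun p => p.1 < p.2),
      {midBlock m k p.1 p.2}) x y = 2 * (k - 2) + 1 := by
  classical
  set c := k - 2 with hc
  set F : V → V → ℕ := fun a b => (midBlock m k a b).count x * (midBlock m k a b).count y with hF
  have hcount : ∀ a b z : V, (midBlock m k a b).count z = ind z a + ind z b + c * ind z (m a b) := by
    intro a b z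
    rw [midBlock, Multiset.count_add, Multiset.count_add, Multiset.count_singleton,
      Multiset.count_singleton, Multiset.count_replicate, ← hc]
    unfold ind
    by_cases h : z = m a b
    · simp [h]
    · have : ¬ m a b = z := fun h2 => h h2.symm
      simp [h, this]
  have hmul : ∀ a b : V, F a b =
      ind x a * ind y b + ind y a * ind x b + c * (ind x a * ind y (m a b))
        + c * (ind y a * ind x (m a b)) + c * (ind x b * ind y (m a b))
        + c * (ind y b * ind x (m a b)) := by
    intro a b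
    simp only [hF, hcount]
    have e1 := ind_mul_ne hxy a
    have e2 := ind_mul_ne hxy b
    have e3 := ind_mul_ne hxy (m a b)
    calc (ind x a + ind x b + c * ind x (m a b)) * (ind y a + ind y b + c * ind y (m a b))
        = ind x a * ind y b + ind y a * ind x b + c * (ind x a * ind y (m a b))
          + c * (ind y a * ind x (m a b)) + c * (ind x b * ind y (m a b))
          + c * (ind y b * ind x (m a b)) + (ind x a * ind y a) + (ind x b * ind y b)
          + c * c * (ind x (m a b) * ind y (m a b)) := by ring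
      _ = _ := by rw [e1, e2, e3]; ring
  have hsymm : ∀ a b, F a b = F b a := by
    intro a b
    rw [hmul, hmul, hcomm b a]
    ring
  have hdiag : ∀ a, F a a = 0 := by
    intro a
    rw [hmul, hidem]
    have e1 := ind_mul_ne hxy a
    have e2 := ind_mul_ne hxy.symm a
    rw [e1, e2]
    simp
  rw [conc_sum]
  have h1 : ∀ p : V × V, conc ({midBlock m k p.1 p.2} : Multiset (Multiset V)) x y = F p.1 p.2 :=
    fun p => conc_singleton _ _ _
  simp only [h1]
  -- twice the sum over `a < b` is the sum over all pairs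
  have h2 : ∑ p ∈ (Finset.univ : Finset (V × V)).filter (fun p => p.2 < p.1), F p.1 p.2
      = ∑ p ∈ (Finset.univ : Finset (V × V)).filter (fun p => p.1 < p.2), F p.1 p.2 := by
    refine Finset.sum_bij' (fun p _ => (p.2, p.1)) (fun p _ => (p.2, p.1)) ?_ ?_ ?_ ?_ ?_
    · intro p hp; simpa using hp
    · intro p hp; simpa using hp
    · intro p _; rfl
    · intro p _; rfl
    · intro p _; exact hsymm _ _
  have h3 : ∑ p : V × V, F p.1 p.2 =
      ∑ p ∈ (Finset.univ : Finset (V × V)).filter (fun p => p.1 < p.2), F p.1 p.2 +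
      ∑ p ∈ (Finset.univ : Finset (V × V)).filter (fun p => p.2 < p.1), F p.1 p.2 := by
    rw [Finset.sum_filter, Finset.sum_filter, ← Finset.sum_add_distrib]
    apply Finset.sum_congr rfl
    rintro ⟨a, b⟩ _
    rcases lt_trichotomy a b with h | h | h
    · simp [h, not_lt.2 h.le]
    · subst h; simp [hdiag]
    · simp [h, not_lt.2 h.le]
  have h4 : ∑ p : V × V, F p.1 p.2 = 2 * (2 * c + 1) := by
    rw [Fintype.sum_prod_type]
    simp only [hmul, Finset.sum_add_distrib, ← Finset.mul_sum]
    have hqc : ∀ b z, ∃! a, m a b = z := by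
      intro b z
      obtain ⟨a, ha, ha'⟩ := hq b z
      exact ⟨a, by simp only; rw [hcomm]; exact ha,
        fun a' (h' : m a' b = z) => ha' a' (by simp only; rw [hcomm]; exact h')⟩
    have e1 : ∀ z w : V, ∑ a : V, ind z a * ∑ b : V, ind w b = 1 := by
      intro z w
      rw [sum_ind_left z (fun _ => ∑ b : V, ind w b)]
      have := sum_ind_left w (fun _ => 1)
      simpa using this
    have e2 : ∀ z w : V, ∑ a : V, ind z a * ∑ b : V, ind w (m a b) = 1 := by
      intro z w
      rw [sum_ind_left z (fun a => ∑ b : V, ind w (m a b))]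
      exact sum_ind_quasi _ _ (hq z w)
    have e3 : ∀ z w : V, ∑ a : V, ∑ b : V, ind z b * ind w (m a b) = 1 := by
      intro z w
      rw [Finset.sum_comm]
      simp only [← Finset.mul_sum]
      rw [sum_ind_left z (fun b => ∑ a : V, ind w (m a b))]
      exact sum_ind_quasi (fun a => m a z) _ (hqc z w)
    rw [e1 x y, e1 y x, e2 x y, e2 y x, e3 x y, e3 y x]
    ring
  omega

/-- The parity condition: for odd `k`, `l * (v - 1)` is even. -/
theorem parity_nec {v k l : ℕ} (hk : ¬ Even k) (hv : 1 ≤ v) {D : Multiset (Multiset (Fin v))}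
    (hD : IsVB v k l D) : Even (l * (v - 1)) := by
  obtain ⟨hB, hc⟩ := hD
  set i : Fin v := ⟨0, by omega⟩ with hi
  have h1 : ∑ j ∈ Finset.univ.erase i, conc D i j = l * (v - 1) := by
    rw [Finset.sum_congr rfl (g := fun _ => l)]
    · simp [Finset.card_erase_of_mem, Nat.mul_comm]
    · intro j hj
      exact hc i j (Finset.ne_of_mem_erase hj).symm
  rw [← h1]
  have h2 : ∀ E : Multiset (Multiset (Fin v)), (∀ B ∈ E, B.card = k) →
      Even (∑ j ∈ Finset.univ.erase i, conc E i j) := by
    intro E
    induction E using Multiset.induction_on with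
    | empty => intro _; simp [conc_zero]
    | cons B E ih =>
      intro h
      have h3 : ∀ j, conc (B ::ₘ E) i j = B.count i * B.count j + conc E i j := by
        intro j; simp [conc]
      simp only [h3, Finset.sum_add_distrib]
      refine Even.add ?_ (ih fun C hC => h C (Multiset.mem_cons_of_mem hC))
      rw [← Finset.mul_sum]
      have h4 : B.count i + ∑ j ∈ Finset.univ.erase i, B.count j = k := by
        rw [Finset.add_sum_erase Finset.univ (fun j => B.count j) (Finset.mem_univ i)]
        rw [Multiset.sum_count_eq_card (fun a _ => Finset.mem_univ a)]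
        exact h B (Multiset.mem_cons_self B E)
      rw [Nat.even_mul]
      rcases Nat.even_or_odd (B.count i) with h5 | h5
      · exact Or.inl h5
      · right
        by_contra h6
        apply hk
        rw [← h4]
        exact h5.add_odd (Nat.not_even_iff_odd.1 h6)
  exact h2 D fun B hB' => (hB B hB').1

end Pool.Agent.Helper52.VB
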